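import Pool.Agent.MWC.Stmts

set_option autoImplicit false

namespace Pool.Agent.MWC.H33

open Pool.Agent.MWC Pool.Agent.MVO Pool.Agent.MWL Pool.Agent.Helper14_MV Pool.Agent.Helper2_MV

theorem clr_tab {r : Bool} {k i : ℕ} {s : List ℕ} (hl : s.length = k + 1) (hi : i ≤ k)
    (h : rep s i = 2) : tab r k s i = [] := by
  unfold rep at h
  cases r with
  | false =>
    show tabF s i = []
    unfold tabF
    rw [if_pos h]
  | true =>
    show tabF s.reverse (k - i) = []
    have h1 : s.reverse.getD (k - i) 0 = 2 := by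
      rw [List.getD_eq_getElem?_getD] at h ⊢
      rw [List.getElem?_reverse (by omega)]
      have h2 : s.length - 1 - (k - i) = i := by omega
      rw [h2]
      exact h
    unfold tabF
    rw [if_pos h1]

theorem clr (kyr : KyrStmt) (tbr : TbrStmt) (shf : ShfStmt) : ClrStmt := by
  intro r n β h3 hlr k P N C hclo hP hN c c' hdeg hc hrel
  obtain ⟨kyr1, _⟩ := kyr r n β h3 hlr
  obtain ⟨ka, kb, kc⟩ := kyr1 k c c' hrel
  have hdeg' : 2 ≤ deg k c' := kc hdeg
  obtain ⟨⟨sl, sa⟩, _, sv, _⟩ := shf r k c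
  obtain ⟨⟨tl, ta⟩, _, tv, _⟩ := shf r k c'
  by_contra hnot
  have h1 : sep r k P N (shp r k c) (shp r k c') = true := by
    unfold clo at hclo
    rw [List.all_eq_true] at hclo
    have h2 := hclo _ hc
    rw [List.all_eq_true] at h2
    have h4 := h2 _ (tv hdeg')
    rw [Bool.or_eq_true, decide_eq_true_iff] at h4
    exact h4.resolve_left hnot
  have abs_no : ∀ (d : ℕ → ℕ) (i : ℕ), 2 ≤ deg k d → i ≤ k →
      abn N (tab r k (shp r k d) i) = true → ¬ Ab n (FC.ofFIC β) k d i := by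
    intro d i hd hi hab hA
    unfold abn at hab
    rw [List.any_eq_true] at hab
    obtain ⟨κ, hκ, hκN⟩ := hab
    rw [decide_eq_true_iff] at hκN
    exact hN κ hκN ((tbr r n β hlr k d i hi hd).1 hA κ hκ)
  have abs_yes : ∀ (d : ℕ → ℕ) (i : ℕ), 2 ≤ deg k d → i ≤ k →
      prs P (tab r k (shp r k d) i) = true → Ab n (FC.ofFIC β) k d i := by
    intro d i hd hi hab
    unfold prs at hab
    rw [List.all_eq_true] at hab
    rw [tbr r n β hlr k d i hi hd]
    intro κ hκ
    have h5 := hab κ hκ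
    rw [decide_eq_true_iff] at h5
    exact hP κ h5
  have val : ∀ (d : ℕ → ℕ) (i : ℕ), 2 ≤ deg k d → i ≤ k → ¬ Ab n (FC.ofFIC β) k d i →
      rep (shp r k d) i = d i := by
    intro d i hd hi hA
    obtain ⟨⟨dl, da⟩, _⟩ := shf r k d
    obtain ⟨d0, d2, d1, _⟩ := da i hi
    have hne : rep (shp r k d) i ≠ 2 := by
      intro h6
      apply hA
      rw [tbr r n β hlr k d i hi hd, clr_tab dl hi h6]
      intro κ hκ
      exact absurd hκ List.not_mem_nil
    rcases Nat.lt_or_ge (rep (shp r k d) i) 1 with h7 | h7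
    · have h8 : rep (shp r k d) i = 0 := by omega
      rw [h8, d0.1 h8]
    · have h8 : rep (shp r k d) i = 1 := by omega
      rw [h8, d1 h8]
  unfold sep at h1
  rw [List.any_eq_true] at h1
  obtain ⟨i, hi, h5⟩ := h1
  rw [List.mem_range] at hi
  have hik : i ≤ k := by omega
  simp only [Bool.or_eq_true, Bool.and_eq_true] at h5
  rcases h5 with (⟨h6, h7⟩ | ⟨h6, h7⟩) | ⟨h6, h7⟩
  · have hna : ¬ Ab n (FC.ofFIC β) k c i := by
      rcases h7 with h8 | h8
      · exact abs_no c i hdeg hik h8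
      · intro h9
        exact abs_no c' i hdeg' hik h8 ((kb i hik).1 h9)
    have hna' : ¬ Ab n (FC.ofFIC β) k c' i := fun h9 => hna ((kb i hik).2 h9)
    have h10 := ka i hik hna
    rw [val c i hdeg hik hna, val c' i hdeg' hik hna', h10] at h6
    simp at h6
  · exact abs_no c' i hdeg' hik h7 ((kb i hik).1 (abs_yes c i hdeg hik h6))
  · exact abs_no c i hdeg hik h7 ((kb i hik).2 (abs_yes c' i hdeg' hik h6))

end Pool.Agent.MWC.H33
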