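import Pool.Agent.MWC.Stmts
import Pool.Agent.Helper97_MVO.GTB

set_option autoImplicit false

namespace Pool.Agent.MWC.H33

open Pool.Agent.MWC Pool.Agent.MVO Pool.Agent.Helper14_MV Pool.Agent.Helper2_MV Pool.Agent.MVO.H97

theorem gti (wbi : WbiStmt) (hnf : NfaStmt) : GtiStmt := by
  intro β h3 hcl k l T hT hTl hcls hno
  have key : ∀ W W' : Word, β.r W W' → QT k T W → QT k T W' := by
    rintro W W' hW ⟨B, hB, hlet, hTB, hlast⟩
    have hr : RR β (asm k B) W'.toList := by
      unfold RR
      rw [← hB, FreeMonoid.ofList_toList, FreeMonoid.ofList_toList]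
      exact hW
    obtain ⟨B', hB', hlet', _⟩ := wbi β h3 k B W'.toList hlet hr
    rw [hB'] at hr
    have hlet2 : ∀ j ≤ k, ∀ c ∈ B' j, c = 0 ∨ c = 1 := fun j _ => hlet' j
    have hL0 := gtb_L1 (gtb_blk hlet) (gtb_blk hlet2) hr 0
    have hL1 := gtb_L1 (gtb_blk hlet) (gtb_blk hlet2) hr 1
    have hT' := hcls _ _ _ _ hTB hL0 hL1
    refine ⟨B', hB', hlet2, hT', ?_⟩
    obtain ⟨da, db, ma, mb⟩ := hTl _ _ hTB
    obtain ⟨da', db', ma', mb'⟩ := hTl _ _ hT'
    rw [hB] at hlast
    rw [hB']
    by_contra hne
    have hlast' : ((asm k B').filter (fun x => decide (x = 0 ∨ x = 1))).getLast? = some 0 := by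
      have hcnt : 0 < (asm k B').count 0 := by
        rw [count_asm (fun h => by omega)]
        omega
      have hm : 0 ∈ (asm k B').filter (fun x => decide (x = 0 ∨ x = 1)) := by
        rw [List.mem_filter]
        exact ⟨List.count_pos_iff.1 hcnt, by simp⟩
      have hnn := List.ne_nil_of_mem hm
      have h4 := List.getLast_mem hnn
      have h5 := List.getLast?_eq_getLast_of_ne_nil hnn
      rw [List.mem_filter, decide_eq_true_iff] at h4
      rcases h4.2 with h6 | h6
      · rw [h5, h6]
      · rw [h6] at h5
        exact absurd h5 hne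
    -- the four relations
    have c1 : RR β (asm k B) (w2 k (fun j => (B j).count 0) (fun j => (B j).count 1)
        (fun _ => false)) := by
      have h7 := gtb_last_w2 ma mb (fun _ => false)
      unfold w2 at h7 ⊢
      apply gtb_nf hnf hcl hlet
      · intro j _ c hc
        exact gtb_bl_mem hc
      · intro j _
        rw [gtb_bl_count0]
      · intro j _
        rw [gtb_bl_count1]
      · exact da
      · exact db
      · rw [hlast, h7]
        rfl
    have c2 : RR β (asm k B') (w2 k (fun j => (B' j).count 0) (fun j => (B' j).count 1)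
        (fun _ => true)) := by
      have h7 := gtb_last_w2 ma' mb' (fun _ => true)
      unfold w2 at h7 ⊢
      apply gtb_nf hnf hcl hlet2
      · intro j _ c hc
        exact gtb_bl_mem hc
      · intro j _
        rw [gtb_bl_count0]
      · intro j _
        rw [gtb_bl_count1]
      · exact da'
      · exact db'
      · rw [hlast', h7]
        rfl
    have c3 := gtb_change hL0 hL1
    have c4 : RR β (w2 k (fun j => (B j).count 0) (fun j => (B j).count 1) (fun _ => false))
        (w2 k (fun j => (B j).count 0) (fun j => (B j).count 1) (fun _ => true)) :=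
      β.trans (β.symm c1) (β.trans hr (β.trans c2 (β.symm c3)))
    apply hno _ _ hTB
    intro e
    unfold Ex
    cases he : e l with
    | false =>
      have h8 : RR β (w2 k (fun j => (B j).count 0) (fun j => (B j).count 1) e)
          (w2 k (fun j => (B j).count 0) (fun j => (B j).count 1) (fun _ => false)) :=
        gtb_w2 hnf hcl da db ma mb he
      have h9 : RR β (w2 k (fun j => (B j).count 0) (fun j => (B j).count 1) (fun _ => true))
          (w2 k (fun j => (B j).count 0) (fun j => (B j).count 1) (flp e l)) := by
        apply gtb_w2 hnf hcl da db ma mb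
        unfold flp
        rw [if_pos rfl, he]
        rfl
      exact β.trans h8 (β.trans c4 h9)
    | true =>
      have h8 : RR β (w2 k (fun j => (B j).count 0) (fun j => (B j).count 1) e)
          (w2 k (fun j => (B j).count 0) (fun j => (B j).count 1) (fun _ => true)) :=
        gtb_w2 hnf hcl da db ma mb he
      have h9 : RR β (w2 k (fun j => (B j).count 0) (fun j => (B j).count 1) (fun _ => false))
          (w2 k (fun j => (B j).count 0) (fun j => (B j).count 1) (flp e l)) := by
        apply gtb_w2 hnf hcl da db ma mb
        unfold flp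
        rw [if_pos rfl, he]
        rfl
      exact β.trans h8 (β.trans (β.symm c4) h9)
  intro u v huv φ m q
  constructor
  · exact key _ _ (β.mul (β.mul (β.refl m) (β.sub φ huv)) (β.refl q))
  · exact key _ _ (β.mul (β.mul (β.refl m) (β.sub φ (β.symm huv))) (β.refl q))

end Pool.Agent.MWC.H33
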